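import Pool.Agent.Run7.h293.TS.Defs
import Pool.Agent.W215.FM.Gen

/-!
# The second cohomology of semistable surfaces
-/

set_option autoImplicit false

namespace Run7.h293.TS

open Module Pool.Agent.W569.FM

/-- conjugates of elements of inertia groups -/
theorem inertia_conj' {F : Type} [Field F] {Q : Ideal (OO F)} (hQ : Q.IsMaximal) {σ : GF F}
    (hσ : InInertia Q σ) (g : GF F) :
    ∃ P : Ideal (OO F), P.IsMaximal ∧ InInertia P (g⁻¹ * σ * g) := by
  refine ⟨Q.comap (MulSemiringAction.toRingHom (GF F) (OO F) g), ?_, ?_⟩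
  · exact Ideal.comap_isMaximal_of_surjective _ (fun y => ⟨g⁻¹ • y, smul_inv_smul g y⟩)
  · intro x
    rw [Ideal.mem_comap]
    change g • ((g⁻¹ * σ * g) • x - x) ∈ Q
    rw [smul_sub, smul_smul, mul_assoc, mul_inv_cancel_left, mul_smul]
    exact hσ (g • x)

theorem noUnramified_rat : NoUnramified ℚ := by
  intro H hH hI
  have hfin : Finite (GF ℚ ⧸ H) := Subgroup.quotient_finite_of_isOpen H hH
  let f : GF ℚ →* Equiv.Perm (GF ℚ ⧸ H) := MulAction.toPermHom (GF ℚ) (GF ℚ ⧸ H)
  have hclosed : IsClosed (f.ker : Set (GF ℚ)) := by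
    have h1 : (f.ker : Set (GF ℚ)) = ⋂ g : GF ℚ, {σ | g⁻¹ * σ * g ∈ H} := by
      ext σ
      simp only [Set.mem_iInter, Set.mem_ofPred_eq, SetLike.mem_coe, MonoidHom.mem_ker]
      constructor
      · intro h g
        have h2 := Equiv.congr_fun h (g : GF ℚ ⧸ H)
        have h3 : ((σ * g : GF ℚ) : GF ℚ ⧸ H) = (g : GF ℚ ⧸ H) := h2
        have h4 := QuotientGroup.eq.1 h3.symm
        rwa [← mul_assoc] at h4
      · intro h
        apply Equiv.ext
        intro q
        induction q using QuotientGroup.induction_on with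
        | H g =>
          change ((σ * g : GF ℚ) : GF ℚ ⧸ H) = (g : GF ℚ ⧸ H)
          refine (QuotientGroup.eq.2 ?_).symm
          rw [← mul_assoc]
          exact h g
    rw [h1]
    refine isClosed_iInter fun g => ?_
    exact (Subgroup.isClosed_of_isOpen H hH).preimage
      (Continuous.mul (Continuous.mul continuous_const continuous_id) continuous_const)
  have hopen : IsOpen (f.ker : Set (GF ℚ)) := Subgroup.isOpen_of_isClosed_of_finiteIndex _ hclosed
  have h1 := Pool.Agent.W215.FM.main _ f hopen (by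
    intro P hP τ hτ
    apply Equiv.ext
    intro q
    induction q using QuotientGroup.induction_on with
    | H g =>
      change ((τ * g : GF ℚ) : GF ℚ ⧸ H) = (g : GF ℚ ⧸ H)
      refine (QuotientGroup.eq.2 ?_).symm
      rw [← mul_assoc]
      obtain ⟨P', hP', h2⟩ := inertia_conj' hP hτ g
      exact hI (Subgroup.subset_closure ⟨P', hP', h2⟩))
  rw [eq_top_iff]
  intro g _
  have h2 := Equiv.congr_fun (h1 g) ((1 : GF ℚ) : GF ℚ ⧸ H)
  have h3 : ((g * 1 : GF ℚ) : GF ℚ ⧸ H) = ((1 : GF ℚ) : GF ℚ ⧸ H) := h2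
  have h4 := QuotientGroup.eq.1 h3.symm
  rwa [inv_one, one_mul, mul_one] at h4

section

variable {F K V : Type} [Field F] [Field K] [TopologicalSpace K] [AddCommGroup V] [Module K V]
  {X : SurfaceRep F K V}

theorem rho_inv (g : GF F) (x : V) : X.ρ g (X.ρ g⁻¹ x) = x := by
  rw [← Module.End.mul_apply, ← map_mul, mul_inv_cancel, map_one, Module.End.one_apply]

theorem rho_inv' (g : GF F) (x : V) : X.ρ g⁻¹ (X.ρ g x) = x := by
  rw [← Module.End.mul_apply, ← map_mul, inv_mul_cancel, map_one, Module.End.one_apply]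

/-- a unipotent endomorphism with a fixed power -/
theorem fixed_of_pow [CharZero K] {A : End K V} (hA : IsNilpotent (A - 1)) {x : V} {n : ℕ}
    (hn : n ≠ 0) (h : ∀ k : ℕ, (A ^ n) ((A ^ k) x) = (A ^ k) x) : A x = x := by
  -- on the span of the orbit, `A ^ n = 1`
  have hst : ∀ k : ℕ, (A ^ n - 1) (((A - 1) ^ k) x) = 0 := by
    intro k
    have h1 : ∀ y ∈ Submodule.span K (Set.range fun k : ℕ => (A ^ k) x), (A ^ n - 1) y = 0 := by
      intro y hy
      induction hy using Submodule.span_induction with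
      | mem y hy =>
        obtain ⟨k, rfl⟩ := hy
        rw [LinearMap.sub_apply, h k, Module.End.one_apply, sub_self]
      | zero => rw [map_zero]
      | add a b _ _ ha hb => rw [map_add, ha, hb, add_zero]
      | smul c a _ ha => rw [map_smul, ha, smul_zero]
    apply h1
    induction k with
    | zero => exact Submodule.subset_span ⟨0, rfl⟩
    | succ k ih =>
      rw [pow_succ', Module.End.mul_apply]
      have h2 : ∀ y ∈ Submodule.span K (Set.range fun k : ℕ => (A ^ k) x),
          (A - 1) y ∈ Submodule.span K (Set.range fun k : ℕ => (A ^ k) x) := by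
        intro y hy
        induction hy using Submodule.span_induction with
        | mem y hy =>
          obtain ⟨k, rfl⟩ := hy
          rw [LinearMap.sub_apply, Module.End.one_apply, ← Module.End.mul_apply, ← pow_succ']
          exact Submodule.sub_mem _ (Submodule.subset_span ⟨k + 1, rfl⟩)
            (Submodule.subset_span ⟨k, rfl⟩)
        | zero => rw [map_zero]; exact Submodule.zero_mem _
        | add a b _ _ ha hb => rw [map_add]; exact Submodule.add_mem _ ha hb
        | smul c a _ ha => rw [map_smul]; exact Submodule.smul_mem _ _ ha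
      exact h2 _ ih
  by_contra hne
  have hne' : (A - 1) x ≠ 0 := by
    rw [LinearMap.sub_apply, Module.End.one_apply]
    exact sub_ne_zero.2 hne
  obtain ⟨N, hN⟩ := hA
  -- the last nonzero power
  have hex : ∃ k : ℕ, ((A - 1) ^ k) x = 0 := ⟨N, by rw [hN, LinearMap.zero_apply]⟩
  classical
  obtain ⟨m, hm1, hm2⟩ : ∃ m : ℕ, ((A - 1) ^ (m + 1)) x ≠ 0 ∧ ((A - 1) ^ (m + 1 + 1)) x = 0 := by
    have h1 := Nat.find_spec hex
    have h2 : 2 ≤ Nat.find hex := by
      by_contra hlt
      push Not at hlt
      interval_cases hf : Nat.find hex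
      · rw [pow_zero, Module.End.one_apply] at h1
        rw [h1, map_zero] at hne'
        exact hne' rfl
      · rw [pow_one] at h1
        exact hne' h1
    obtain ⟨m, hm⟩ := Nat.exists_eq_add_of_le h2
    refine ⟨m, Nat.find_min hex (by omega), ?_⟩
    rw [show m + 1 + 1 = Nat.find hex by omega]
    exact h1
  -- `y = (A - 1) ^ m x` satisfies `A ^ n y = y + n (A - 1) y`
  obtain ⟨y, hy⟩ : ∃ y, y = ((A - 1) ^ m) x := ⟨_, rfl⟩
  have h2 : (A - 1) ((A - 1) y) = 0 := by
    rw [hy, ← Module.End.mul_apply, ← Module.End.mul_apply]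
    have h6 : (A - 1) * ((A - 1) * (A - 1) ^ m) = (A - 1) ^ (m + 1 + 1) := by
      rw [pow_succ' (A - 1) (m + 1), pow_succ' (A - 1) m]
    rw [← h6, ← mul_assoc] at hm2
    exact hm2
  have h3 : (A - 1) y ≠ 0 := by
    rw [hy, ← Module.End.mul_apply, ← pow_succ']
    exact hm1
  have h4 : ∀ k : ℕ, (A ^ k) y = y + (k : K) • (A - 1) y := by
    intro k
    induction k with
    | zero => simp
    | succ k ih =>
      have h5 : A ((A - 1) y) = (A - 1) y := by
        have h6 := h2
        rw [LinearMap.sub_apply, Module.End.one_apply, sub_eq_zero] at h6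
        exact h6
      have h7 : A y = y + (A - 1) y := by
        rw [LinearMap.sub_apply, Module.End.one_apply]
        abel
      rw [pow_succ', Module.End.mul_apply, ih, map_add, map_smul, h5, h7, Nat.cast_succ, add_smul,
        one_smul, add_assoc, add_comm ((A - 1) y)]
  have h5 := hst m
  rw [← hy, LinearMap.sub_apply, Module.End.one_apply, h4 n, add_sub_cancel_left] at h5
  exact (smul_ne_zero (Nat.cast_ne_zero.2 hn) h3) h5

/-- The vectors fixed by the normal core. -/
def fix (X : SurfaceRep F K V) (H : Subgroup (GF F)) : Submodule K V where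
  carrier := {x | ∀ g ∈ H, X.ρ g x = x}
  add_mem' := fun {a b} ha hb g hg => by rw [map_add, ha g hg, hb g hg]
  zero_mem' := fun g _ => map_zero _
  smul_mem' := fun c {a} ha g hg => by rw [map_smul, ha g hg]

theorem fix_stable (H : Subgroup (GF F)) [H.Normal] (g : GF F) {x : V} (hx : x ∈ fix X H) :
    X.ρ g x ∈ fix X H := by
  intro h hh
  have h1 := hx (g⁻¹ * h * g) (by
    have := Subgroup.Normal.conj_mem ‹H.Normal› h hh g⁻¹
    rwa [inv_inv] at this)
  rw [map_mul, map_mul, Module.End.mul_apply, Module.End.mul_apply] at h1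
  have h2 := congrArg (X.ρ g) h1
  rwa [rho_inv] at h2

variable [CharZero K] {ℓ : ℕ}

/-- inertia acts trivially on the classes which are fixed by a subgroup of finite index -/
theorem inertia_fix (hs : X.Semistable ℓ) (hℓ : X.SemistableAt ℓ) {H : Subgroup (GF F)}
    (hH : H.FiniteIndex) {x : V} (hx : ∀ g ∈ H, X.ρ g x = x) {Q : Ideal (OO F)}
    (hQ : Q.IsMaximal) {σ : GF F} (hσ : InInertia Q σ) : X.ρ σ x = x := by
  have hx' : x ∈ fix X H.normalCore := fun g hg => hx g (Subgroup.normalCore_le H hg)
  by_cases h : (ℓ : OO F) ∈ Q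
  · exact hℓ (fix X H.normalCore) (fun g x hx => fix_stable _ g hx)
      ⟨H.normalCore, inferInstance, fun x hx g hg => hx g hg⟩ Q hQ h σ hσ x hx'
  · have hfi : H.normalCore.FiniteIndex := inferInstance
    obtain ⟨n, hn, -, hσn⟩ := Subgroup.exists_pow_mem_of_index_ne_zero hfi.index_ne_zero σ
    refine fixed_of_pow (hs σ ⟨Q, hQ, h, hσ⟩) (Nat.pos_iff_ne_zero.1 hn) fun k => ?_
    rw [← map_pow, ← map_pow]
    exact fix_stable _ _ hx' _ hσn

theorem unr_fix (hs : X.Semistable ℓ) (hℓ : X.SemistableAt ℓ) {H : Subgroup (GF F)}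
    (hH : H.FiniteIndex) {x : V} (hx : ∀ g ∈ H, X.ρ g x = x) :
    ∀ g ∈ H ⊔ unr F, X.ρ g x = x := by
  let S : Subgroup (GF F) :=
    { carrier := {g | X.ρ g x = x}
      mul_mem' := fun {a b} ha hb => by
        change X.ρ (a * b) x = x
        rw [map_mul, Module.End.mul_apply, show X.ρ b x = x from hb, show X.ρ a x = x from ha]
      one_mem' := by
        change X.ρ 1 x = x
        rw [map_one, Module.End.one_apply]
      inv_mem' := fun {a} ha => by
        change X.ρ a⁻¹ x = x
        conv_lhs => rw [← show X.ρ a x = x from ha]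
        rw [rho_inv'] }
  have h1 : H ⊔ unr F ≤ S := by
    refine sup_le (fun g hg => hx g hg) ?_
    unfold unr
    rw [Subgroup.closure_le]
    rintro σ ⟨Q, hQ, hσ⟩
    exact inertia_fix hs hℓ hH hx hQ hσ
  exact fun g hg => h1 hg

/-- **the classes which are fixed by a subgroup of finite index are fixed** -/
theorem all_fix [T1Space K] (hF : NoUnramified F) (hs : X.Semistable ℓ)
    (hℓ : X.SemistableAt ℓ) {H : Subgroup (GF F)}
    (hH : H.FiniteIndex) {x : V} (hx : ∀ g ∈ H, X.ρ g x = x) (g : GF F) : X.ρ g x = x := by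
  let S : Subgroup (GF F) :=
    { carrier := {g | ∀ y ∈ fix X H.normalCore, X.ρ g y = y}
      mul_mem' := fun {a b} ha hb y hy => by
        rw [map_mul, Module.End.mul_apply, hb y hy, ha y hy]
      one_mem' := fun y _ => by rw [map_one, Module.End.one_apply]
      inv_mem' := fun {a} ha y hy => by
        conv_lhs => rw [← ha y hy]
        rw [rho_inv'] }
  have hcore : H.normalCore ≤ S := fun g hg y hy => hy g hg
  have hfi : H.normalCore.FiniteIndex := inferInstance
  have hSfi : S.FiniteIndex := Subgroup.finiteIndex_of_le hcore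
  have hclosed : IsClosed (S : Set (GF F)) := by
    have h1 : (S : Set (GF F)) = ⋂ (y ∈ fix X H.normalCore) (ξ : Dual K V),
        {g | ξ (X.ρ g y) = ξ y} := by
      ext g
      simp only [Set.mem_iInter, Set.mem_ofPred_eq, SetLike.mem_coe]
      constructor
      · intro hg y hy ξ
        rw [hg y hy]
      · intro h y hy
        rw [← sub_eq_zero]
        by_contra hne
        obtain ⟨ξ, hξ⟩ : ∃ ξ : Dual K V, ξ (X.ρ g y - y) ≠ 0 := by
          by_contra hcon
          push Not at hcon
          exact hne ((Module.forall_dual_apply_eq_zero_iff K _).1 hcon)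
        exact hξ (by rw [map_sub, h y hy ξ, sub_self])
    rw [h1]
    refine isClosed_biInter fun y _ => isClosed_iInter fun ξ => ?_
    exact (isClosed_singleton (x := ξ y)).preimage (X.continuous ξ y)
  have hopen : IsOpen (S : Set (GF F)) := Subgroup.isOpen_of_isClosed_of_finiteIndex _ hclosed
  have htop := hF S hopen (by
    unfold unr
    rw [Subgroup.closure_le]
    rintro σ ⟨Q, hQ, hσ⟩ y hy
    exact inertia_fix hs hℓ (H := H.normalCore) inferInstance hy hQ hσ)
  have h1 : g ∈ S := by
    rw [htop]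
    exact Subgroup.mem_top g
  exact h1 x fun g hg => hx g (Subgroup.normalCore_le H hg)

/-! ### The rank criterion -/

theorem fix_mono (x : V) : (∀ y ∈ X.monodromySpan ℓ, X.ω x y = 0) ↔
    ∀ σ, AwayInertia ℓ σ → X.ρ σ x = x := by
  have key : ∀ σ, (∀ z, X.ω x (X.ρ σ z - z) = 0) ↔ X.ρ σ⁻¹ x = x := by
    intro σ
    have h1 : ∀ z, X.ω x (X.ρ σ z - z) = X.ω (X.ρ σ⁻¹ x - x) z := by
      intro z
      rw [map_sub, map_sub, LinearMap.sub_apply, ← X.invariant σ (X.ρ σ⁻¹ x) z, rho_inv]
    constructor
    · intro h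
      rw [← sub_eq_zero]
      apply X.nondegenerate
      intro z
      rw [← h1]
      exact h z
    · intro h z
      rw [h1, h, sub_self, map_zero, LinearMap.zero_apply]
  have hinv : ∀ σ : GF F, AwayInertia ℓ σ → AwayInertia ℓ σ⁻¹ := by
    rintro σ ⟨Q, hQ, hℓ, hσ⟩
    refine ⟨Q, hQ, hℓ, fun z => ?_⟩
    have h1 := hσ (σ⁻¹ • z)
    rw [smul_inv_smul] at h1
    rw [← Q.neg_mem_iff, neg_sub]
    exact h1
  constructor
  · intro h σ hσ
    have h1 := (key σ⁻¹).1 fun z => h _ (Submodule.subset_span ⟨σ⁻¹, z, hinv σ hσ, rfl⟩)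
    rwa [inv_inv] at h1
  · intro h y hy
    unfold SurfaceRep.monodromySpan at hy
    induction hy using Submodule.span_induction with
    | mem y hy =>
      obtain ⟨σ, z, hσ, rfl⟩ := hy
      exact (key σ).2 (h _ (hinv σ hσ)) z
    | zero => rw [map_zero]
    | add a b _ _ ha hb => rw [map_add, ha, hb, add_zero]
    | smul c a _ ha => rw [map_smul, ha, smul_zero]

theorem fontaine_fix (hs : X.Semistable ℓ) (hFo : X.Fontaine ℓ) {H : Subgroup (GF F)}
    (hH : H.FiniteIndex) {x : V} : (∀ g ∈ H, X.ρ g x = x) ↔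
      ∀ σ, AwayInertia ℓ σ → X.ρ σ x = x := by
  constructor
  · rintro hx σ ⟨Q, hQ, h, hσ⟩
    have hx' : x ∈ fix X H.normalCore := fun g hg => hx g (Subgroup.normalCore_le H hg)
    have hfi : H.normalCore.FiniteIndex := inferInstance
    obtain ⟨n, hn, -, hσn⟩ := Subgroup.exists_pow_mem_of_index_ne_zero hfi.index_ne_zero σ
    refine fixed_of_pow (hs σ ⟨Q, hQ, h, hσ⟩) (Nat.pos_iff_ne_zero.1 hn) fun k => ?_
    rw [← map_pow, ← map_pow]
    exact fix_stable _ _ hx' _ hσn
  · intro hx g _
    let U : Submodule K V :=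
      { carrier := {y | ∀ σ, AwayInertia ℓ σ → X.ρ σ y = y}
        add_mem' := fun {a b} ha hb σ hσ => by rw [map_add, ha σ hσ, hb σ hσ]
        zero_mem' := fun σ _ => map_zero _
        smul_mem' := fun c {a} ha σ hσ => by rw [map_smul, ha σ hσ] }
    refine hFo U ?_ (fun y hy => hy) x hx g (Subgroup.mem_top g)
    rintro g y hy σ ⟨Q, hQ, hℓ, hσ⟩
    have h1 : AwayInertia ℓ (g⁻¹ * σ * g) := by
      refine ⟨Q.comap (MulSemiringAction.toRingHom (GF F) (OO F) g), ?_, ?_, ?_⟩
      · exact Ideal.comap_isMaximal_of_surjective _ (fun y => ⟨g⁻¹ • y, smul_inv_smul g y⟩)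
      · rw [Ideal.mem_comap, map_natCast]
        exact hℓ
      · intro x
        rw [Ideal.mem_comap]
        change g • ((g⁻¹ * σ * g) • x - x) ∈ Q
        rw [smul_sub, smul_smul, mul_assoc, mul_inv_cancel_left, mul_smul]
        exact hσ (g • x)
    have h2 := hy _ h1
    rw [map_mul, map_mul, Module.End.mul_apply, Module.End.mul_apply] at h2
    have h3 := congrArg (X.ρ g) h2
    rwa [rho_inv] at h3

/-- **the rank criterion** -/
theorem tate_iff_mono [FiniteDimensional K V] (hs : X.Semistable ℓ) (hFo : X.Fontaine ℓ)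
    {H : Subgroup (GF F)} (hH : H.FiniteIndex) :
    (X.TateOver H ↔ ∀ x, (∀ d ∈ X.NS, X.ω x d = 0) → x ∈ X.monodromySpan ℓ) ∧
    finrank K X.NS + finrank K (X.monodromySpan ℓ) ≤ finrank K V ∧
    (X.TateOver H ↔ finrank K X.NS + finrank K (X.monodromySpan ℓ) = finrank K V) := by
  have hrefl : X.ω.IsRefl := fun x y h => by rw [X.symmetric]; exact h
  have hnd : X.ω.Nondegenerate := by
    refine ⟨fun x hx => X.nondegenerate x hx, fun x hx => X.nondegenerate x fun y => ?_⟩
    rw [X.symmetric]
    exact hx y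
  -- the orthogonal complement of the monodromy span
  have horth : ∀ x, x ∈ LinearMap.BilinForm.orthogonal X.ω (X.monodromySpan ℓ) ↔
      ∀ g ∈ H, X.ρ g x = x := by
    intro x
    rw [fontaine_fix hs hFo hH, ← fix_mono]
    constructor
    · intro h y hy
      rw [X.symmetric]
      exact h y hy
    · intro h y hy
      change X.ω y x = 0
      rw [X.symmetric]
      exact h y hy
  have hNS : X.NS ≤ LinearMap.BilinForm.orthogonal X.ω (X.monodromySpan ℓ) := by
    intro c hc
    rw [horth]
    obtain ⟨H', hH', h⟩ := X.algebraic c hc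
    exact (fontaine_fix hs hFo hH).2 ((fontaine_fix hs hFo hH').1 h)
  have hdim := LinearMap.BilinForm.finrank_orthogonal hnd (X.monodromySpan ℓ)
  have hle := Submodule.finrank_le (X.monodromySpan ℓ)
  have hle2 := Submodule.finrank_mono hNS
  have hT : X.TateOver H ↔ X.NS = LinearMap.BilinForm.orthogonal X.ω (X.monodromySpan ℓ) := by
    constructor
    · intro h
      refine le_antisymm hNS fun x hx => h x ((horth x).1 hx)
    · intro h x hx
      rw [h]
      exact (horth x).2 hx
  refine ⟨?_, by omega, ?_⟩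
  · rw [hT]
    constructor
    · intro h x hx
      rw [← LinearMap.BilinForm.orthogonal_orthogonal hnd hrefl (X.monodromySpan ℓ), ← h]
      intro d hd
      change X.ω d x = 0
      rw [X.symmetric]
      exact hx d hd
    · intro h
      refine le_antisymm hNS ?_
      rw [← LinearMap.BilinForm.orthogonal_orthogonal hnd hrefl X.NS]
      refine LinearMap.BilinForm.orthogonal_le ?_
      intro x hx
      refine h x fun d hd => ?_
      rw [X.symmetric]
      exact hx d hd
  · rw [hT]
    constructor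
    · intro h
      rw [h]
      omega
    · intro h
      exact Submodule.eq_of_le_of_finrank_eq hNS (by omega)

end

end Run7.h293.TS
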