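import Pool.Agent.W569.FM.Stmts

/-!
# The second cohomology of semistable surfaces: definitions
-/

set_option autoImplicit false

namespace Run7.h293.TS

open Module Pool.Agent.W569.FM

/-- The cohomology `H²(X, K(1))` of a surface `X` over the number field `F`, with coefficients in a
topological field `K` (for instance `ℚ_ℓ`): the representation `ρ` of the absolute Galois group of
`F` with continuous matrix coefficients on the vector space `V`, the invariant nondegenerate
symmetric cup product form `ω`, and the span `NS` of the divisor classes, which is stable; every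
divisor class is fixed by a subgroup of finite index, and `ω` is nondegenerate on `NS` (Hodge index
theorem). -/
structure SurfaceRep (F K V : Type) [Field F] [Field K] [TopologicalSpace K]
    [AddCommGroup V] [Module K V] where
  /-- the representation -/
  ρ : Representation K (GF F) V
  /-- the form -/
  ω : V →ₗ[K] V →ₗ[K] K
  /-- the divisor classes -/
  NS : Submodule K V
  continuous : ∀ (ξ : Dual K V) (x : V), Continuous fun g => ξ (ρ g x)
  symmetric : ∀ x y, ω x y = ω y x
  nondegenerate : ∀ x, (∀ y, ω x y = 0) → x = 0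
  invariant : ∀ g x y, ω (ρ g x) (ρ g y) = ω x y
  stable : ∀ g, ∀ c ∈ NS, ρ g c ∈ NS
  algebraic : ∀ c ∈ NS, ∃ H : Subgroup (GF F), H.FiniteIndex ∧ ∀ g ∈ H, ρ g c = c
  index : ∀ c ∈ NS, (∀ d ∈ NS, ω c d = 0) → c = 0

/-- `σ` lies in the inertia group at some prime which does not lie above `ℓ`. -/
def AwayInertia {F : Type} [Field F] (ℓ : ℕ) (σ : GF F) : Prop :=
  ∃ Q : Ideal (OO F), Q.IsMaximal ∧ (ℓ : OO F) ∉ Q ∧ InInertia Q σ

/-- The subgroup generated by the inertia groups at all primes. It corresponds to the largest
extension of `F` which is unramified at all finite places. -/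
noncomputable def unr (F : Type) [Field F] : Subgroup (GF F) :=
  Subgroup.closure {σ | ∃ Q : Ideal (OO F), Q.IsMaximal ∧ InInertia Q σ}

/-- The field `F` has no proper extension which is unramified at all finite places. -/
def NoUnramified (F : Type) [Field F] : Prop :=
  ∀ H : Subgroup (GF F), IsOpen (H : Set (GF F)) → unr F ≤ H → H = ⊤

variable {F K V : Type} [Field F] [Field K] [TopologicalSpace K] [AddCommGroup V] [Module K V]
  (X : SurfaceRep F K V)

/-- The vector `x` is fixed by the subgroup `H`. -/
def SurfaceRep.FixedBy (H : Subgroup (GF F)) (x : V) : Prop := ∀ g ∈ H, X.ρ g x = x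

/-- The vector `x` is fixed by the inertia groups outside `ℓ`. -/
def SurfaceRep.FixedAway (ℓ : ℕ) (x : V) : Prop := ∀ σ, AwayInertia ℓ σ → X.ρ σ x = x

/-- The Tate conjecture for divisors on `X` over the fixed field of the subgroup `H`. -/
def SurfaceRep.TateOver (H : Subgroup (GF F)) : Prop := ∀ x, X.FixedBy H x → x ∈ X.NS

/-- The inertia groups at the places which do not divide `ℓ` act by unipotent endomorphisms. -/
def SurfaceRep.Semistable (ℓ : ℕ) : Prop := ∀ σ, AwayInertia ℓ σ → IsNilpotent (X.ρ σ - 1)

/-- The subspace `U` is stable under the Galois group. -/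
def SurfaceRep.Stable (U : Submodule K V) : Prop := ∀ g, ∀ x ∈ U, X.ρ g x ∈ U

/-- On a Galois stable subspace on which a subgroup of finite index acts trivially, the inertia groups
at `ℓ` act trivially. -/
def SurfaceRep.SemistableAt (ℓ : ℕ) : Prop := ∀ U : Submodule K V, X.Stable U →
  (∃ H : Subgroup (GF F), H.FiniteIndex ∧ ∀ x ∈ U, X.FixedBy H x) →
  ∀ Q : Ideal (OO F), Q.IsMaximal → (ℓ : OO F) ∈ Q → ∀ σ, InInertia Q σ → ∀ x ∈ U, X.ρ σ x = x

/-- On a Galois stable subspace on which the inertia groups outside `ℓ` act trivially the Galois group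
acts trivially. -/
def SurfaceRep.Fontaine (ℓ : ℕ) : Prop := ∀ U : Submodule K V, X.Stable U →
  (∀ x ∈ U, X.FixedAway ℓ x) → ∀ x ∈ U, X.FixedBy ⊤ x

/-- The span of the images of `ρ σ - 1` for all elements `σ` of the inertia groups outside `ℓ`. -/
def SurfaceRep.monodromySpan (ℓ : ℕ) : Submodule K V :=
  Submodule.span K {y | ∃ σ x, AwayInertia ℓ σ ∧ y = X.ρ σ x - x}

/-- All classes fixed by `H` are fixed by `H'`, and the Tate conjecture for divisors over the field
of `H` is equivalent to the Tate conjecture over the field of `H'`. -/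
def SurfaceRep.Same (H H' : Subgroup (GF F)) : Prop :=
  (∀ x, X.FixedBy H x → X.FixedBy H' x) ∧ (X.TateOver H ↔ X.TateOver H')

/-- The conclusion for general number fields. -/
def SurfaceRep.OverUnramified : Prop :=
  (∀ c ∈ X.NS, X.FixedBy (unr F) c) ∧
  ∀ H : Subgroup (GF F), H.FiniteIndex → X.Same H (H ⊔ unr F)

/-- The conclusion for fields without unramified extensions. -/
def SurfaceRep.OverBase : Prop :=
  (∀ c ∈ X.NS, X.FixedBy ⊤ c) ∧ ∀ H : Subgroup (GF F), H.FiniteIndex → X.Same H ⊤

/-- The transcendental part, the orthogonal complement of the divisor classes, is contained in the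
subspace `M`. -/
def SurfaceRep.TranscendentalIn (M : Submodule K V) : Prop :=
  ∀ x, (∀ d ∈ X.NS, X.ω x d = 0) → x ∈ M

/-- The rank criterion: a class is fixed by `H` if and only if it is fixed by the inertia groups
outside `ℓ`, and the Tate conjecture is equivalent to two conditions on the span of the local
monodromy. -/
def SurfaceRep.Criterion (ℓ : ℕ) (H : Subgroup (GF F)) : Prop :=
  (∀ x, X.FixedBy H x ↔ X.FixedAway ℓ x) ∧
  (X.TateOver H ↔ X.TranscendentalIn (X.monodromySpan ℓ)) ∧
  Module.finrank K X.NS + Module.finrank K (X.monodromySpan ℓ) ≤ Module.finrank K V ∧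
  (X.TateOver H ↔
    Module.finrank K X.NS + Module.finrank K (X.monodromySpan ℓ) = Module.finrank K V)

end Run7.h293.TS
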